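import Pool.Agent.BEH.StmtsD

/-!
# Squad BEH, row STD (helper19): eigenfunctions of all domains are bounded uniformly
-/

set_option autoImplicit false

namespace Pool.Agent.BEH.H19

open Set Filter Topology MeasureTheory
open scoped InnerProductSpace ENNReal
open Pool.Agent.BE01 Pool.Agent.BEL Pool.Agent.BEH

/-- the weak equation can be tested with `H^1_0` -/
theorem test_h10 {d : ℕ} {Ω : Set (En d)} {f v : Lp ℝ 2 (mu Ω)} {G F : Lp (En d) 2 (mu Ω)}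
    (hw : ∀ ψ, Tst Ω ψ →
      ∫ x, ⟪G x, gradient ψ x⟫_ℝ ∂(mu Ω) = ∫ x, f x * ψ x ∂(mu Ω))
    (hv : (v, F) ∈ H10 Ω) : ⟪G, F⟫_ℝ = ⟪f, v⟫_ℝ := by
  have hg : ∀ F' : Lp (En d) 2 (mu Ω), ∫ x, ⟪G x, F' x⟫_ℝ ∂(mu Ω) = ⟪G, F'⟫_ℝ := fun F' =>
    (L2.inner_def (𝕜 := ℝ) G F').symm
  have hf : ∀ v' : Lp ℝ 2 (mu Ω), ∫ x, f x * v' x ∂(mu Ω) = ⟪f, v'⟫_ℝ := by
    intro v'
    rw [L2.inner_def]
    refine integral_congr_ae (Eventually.of_forall fun x => ?_)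
    simp only [RCLike.inner_apply, conj_trivial]
    ring
  have hcl : IsClosed {P : Lp ℝ 2 (mu Ω) × Lp (En d) 2 (mu Ω) | ⟪G, P.2⟫_ℝ = ⟪f, P.1⟫_ℝ} :=
    isClosed_eq (continuous_const.inner continuous_snd) (continuous_const.inner continuous_fst)
  have hsub : {P : Lp ℝ 2 (mu Ω) × Lp (En d) 2 (mu Ω) |
      ∃ ψ, Tst Ω ψ ∧ P.1 =ᵐ[mu Ω] ψ ∧ P.2 =ᵐ[mu Ω] gradient ψ} ⊆
      {P : Lp ℝ 2 (mu Ω) × Lp (En d) 2 (mu Ω) | ⟪G, P.2⟫_ℝ = ⟪f, P.1⟫_ℝ} := by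
    rintro ⟨p1, p2⟩ ⟨ψ, hψ, h1, h2⟩
    show ⟪G, p2⟫_ℝ = ⟪f, p1⟫_ℝ
    rw [← hg, ← hf]
    have e1 : ∫ x, ⟪G x, p2 x⟫_ℝ ∂(mu Ω) = ∫ x, ⟪G x, gradient ψ x⟫_ℝ ∂(mu Ω) := by
      refine integral_congr_ae ?_
      filter_upwards [h2] with x hx
      rw [hx]
    have e2 : ∫ x, f x * p1 x ∂(mu Ω) = ∫ x, f x * ψ x ∂(mu Ω) := by
      refine integral_congr_ae ?_
      filter_upwards [h1] with x hx
      rw [hx]
    rw [e1, e2]
    exact hw ψ hψ
  exact closure_minimal hsub hcl hv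

theorem std (liu : LiuStmt) : StdStmt := by
  intro d hd
  obtain ⟨C, hC, hliu⟩ := liu d hd
  refine ⟨Real.exp 1 * C, by positivity, ?_⟩
  intro Ω ι b e om hok l u hu
  obtain ⟨G, hG, hw⟩ := hu
  obtain ⟨hGV, huG⟩ := (hok.grf u G).1 hG
  set G0 : VV Ω := ⟨G, hGV⟩ with hG0
  -- the weak equation
  have h1 : ∀ G' : VV Ω, ⟪G, (G' : Lp (En d) 2 (mu Ω))⟫_ℝ = l * ⟪u, ι G'⟫_ℝ := by
    intro G'
    have h2 : ∀ ψ, Tst Ω ψ →
        ∫ x, ⟪G x, gradient ψ x⟫_ℝ ∂(mu Ω) = ∫ x, (l • u) x * ψ x ∂(mu Ω) := by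
      intro ψ hψ
      rw [hw ψ hψ, ← integral_const_mul]
      refine integral_congr_ae ?_
      filter_upwards [Lp.coeFn_smul l u] with x hx
      rw [hx]
      simp only [Pi.smul_apply, smul_eq_mul]
      ring
    have h3 : (ι G', (G' : Lp (En d) 2 (mu Ω))) ∈ H10 Ω := (hok.grf _ _).2 ⟨G'.2, rfl⟩
    rw [test_h10 h2 h3, real_inner_smul_left]
  -- the eigenvalue relation
  have hpos := hok.spec.pos
  have h4 : ∀ k, om k ^ 2 * ⟪b k, u⟫_ℝ = l * ⟪b k, u⟫_ℝ := by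
    intro k
    have h5 : ι (e k) = (om k)⁻¹ • b k := by
      apply b.repr.injective
      ext j
      rw [HilbertBasis.repr_apply_apply, HilbertBasis.repr_apply_apply, hok.spec.rel,
        real_inner_smul_right]
      have h6 := (orthonormal_iff_ite.1 e.orthonormal) j k
      have h7 := (orthonormal_iff_ite.1 b.orthonormal) j k
      rw [h6, h7]
      by_cases hjk : j = k
      · rw [if_pos hjk, hjk]
      · rw [if_neg hjk, mul_zero, mul_zero]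
    have h8 := h1 (e k)
    rw [h5, real_inner_smul_right] at h8
    have h9 : ⟪b k, u⟫_ℝ = (om k)⁻¹ * ⟪e k, G0⟫_ℝ := by
      rw [huG]
      exact hok.spec.rel k G0
    have h10 : ⟪e k, G0⟫_ℝ = ⟪G, ((e k : VV Ω) : Lp (En d) 2 (mu Ω))⟫_ℝ := by
      rw [real_inner_comm]
      rfl
    rw [h10, h8] at h9
    have h11 := (hpos k).ne'
    have h13 : ⟪u, b k⟫_ℝ = ⟪b k, u⟫_ℝ := real_inner_comm _ _
    rw [h13] at h9
    have h12 : ⟪b k, u⟫_ℝ = (om k)⁻¹ * (l * ((om k)⁻¹ * ⟪b k, u⟫_ℝ)) := h9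
    calc om k ^ 2 * ⟪b k, u⟫_ℝ = om k ^ 2 * ((om k)⁻¹ * (l * ((om k)⁻¹ * ⟪b k, u⟫_ℝ))) := by
          rw [← h12]
      _ = l * ⟪b k, u⟫_ℝ := by field_simp
  by_cases hu0 : u = 0
  · have h5 : (u : En d → ℝ) =ᵐ[mu Ω] 0 := by
      rw [hu0]
      exact Lp.coeFn_zero _ _ _
    filter_upwards [h5] with y hy
    rw [hy, hu0]
    simp
  · have hl : 0 < l := by
      by_contra hl
      apply hu0
      apply b.repr.injective
      ext k
      rw [HilbertBasis.repr_apply_apply, map_zero]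
      have h5 := h4 k
      have h6 : (om k ^ 2 - l) * ⟪b k, u⟫_ℝ = 0 := by rw [sub_mul, h5, sub_self]
      rcases mul_eq_zero.1 h6 with h7 | h7
      · have := hpos k
        nlinarith
      · exact h7
    have hheat : Heat b om (1 / l) u (Real.exp (-1) • u) := by
      intro k
      rw [real_inner_smul_right]
      have h6 : (om k ^ 2 - l) * ⟪b k, u⟫_ℝ = 0 := by rw [sub_mul, h4 k, sub_self]
      rcases mul_eq_zero.1 h6 with h7 | h7
      · have h8 : om k ^ 2 = l := by linarith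
        rw [h8, one_div, inv_mul_cancel₀ hl.ne']
      · rw [h7, mul_zero, mul_zero]
    have h5 := hliu Ω ι b e om hok.dom hok.emb hok.spec (1 / l) u _ (by positivity) hheat
    filter_upwards [h5, Lp.coeFn_smul (Real.exp (-1)) u] with y hy hy2
    rw [hy2] at hy
    simp only [Pi.smul_apply, smul_eq_mul] at hy
    rw [abs_mul, abs_of_pos (Real.exp_pos _)] at hy
    have h6 : (1 / l) ^ (-((d : ℝ) / 4)) = |l| ^ ((d : ℝ) / 4) := by
      rw [abs_of_pos hl, one_div, Real.inv_rpow hl.le, Real.rpow_neg hl.le, inv_inv]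
    rw [h6] at hy
    have h7 : |u y| = Real.exp 1 * (Real.exp (-1) * |u y|) := by
      rw [← mul_assoc, ← Real.exp_add]
      simp
    rw [h7]
    calc Real.exp 1 * (Real.exp (-1) * |u y|) ≤
        Real.exp 1 * (C * |l| ^ ((d : ℝ) / 4) * ‖u‖) :=
          mul_le_mul_of_nonneg_left hy (Real.exp_pos 1).le
      _ = Real.exp 1 * C * |l| ^ ((d : ℝ) / 4) * ‖u‖ := by ring

end Pool.Agent.BEH.H19
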